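import Mathlib
import Pool.Agent.Y259.PF.Choose

/-!
# Growth of partial sums does not imply Pringsheim convergence: every growth rate, almost everywhere

For EVERY positive nondecreasing unbounded sequence `μ` there is an unbounded nondecreasing `ν ≥ 1`
such that the answer to the question is negative for the weight `w i k = μ i * ν k`, with
divergence at almost every point of the square, and with unbounded rectangular sums. The system
even has growth `μ i` alone. If `μ` grows at most exponentially, then even the stronger condition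
`∑ a i k ^ 2 * w i k * Θ (μ i) < ∞` does not imply convergence, for every nondecreasing `Θ ≥ 1` for
which the sum of `1 / Θ (2 ^ q)` is infinite, for instance `Θ t = 1 + log (max t 1)`.

The indices `i, k = 1, 2, ...` of the problem are renumbered `0, 1, 2, ...`.
-/

set_option autoImplicit false
open MeasureTheory Filter

namespace Pool.Agent.Results.MP_8173ef_an.EveryGrowthRate

/-- Lebesgue measure on the unit square. -/
noncomputable def sq : Measure (ℝ × ℝ) :=
  (volume : Measure (ℝ × ℝ)).restrict (Set.Icc (0:ℝ) 1 ×ˢ Set.Icc (0:ℝ) 1)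

/-- Admissible weights: positive, nondecreasing in each index, tending to infinity as `min (i, k)`
tends to infinity, with nonnegative mixed differences. -/
def Admissible (w : ℕ → ℕ → ℝ) : Prop :=
  (∀ i k, 0 < w i k) ∧ (∀ i k, w i k ≤ w (i+1) k) ∧ (∀ i k, w i k ≤ w i (k+1)) ∧
  (∀ B : ℝ, ∃ N, ∀ i k, N ≤ i → N ≤ k → B ≤ w i k) ∧
  (∀ i k, 0 ≤ w (i+1) (k+1) - w (i+1) k - w i (k+1) + w i k)

/-- A double orthonormal system of square integrable real functions on the unit square. -/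
def DoubleOrthonormal (φ : ℕ → ℕ → ℝ × ℝ → ℝ) : Prop :=
  (∀ i k, MemLp (φ i k) 2 sq) ∧
  ∀ i k j l, ∫ z, φ i k z * φ j l z ∂sq = if i = j ∧ k = l then 1 else 0

/-- The rectangular sum of `a i k * φ i k` over all `i ≤ m`, `k ≤ n`. -/
noncomputable def rectSum (a : ℕ → ℕ → ℝ) (φ : ℕ → ℕ → ℝ × ℝ → ℝ) (m n : ℕ) (z : ℝ × ℝ) : ℝ :=
  ∑ i ∈ Finset.range (m+1), ∑ k ∈ Finset.range (n+1), a i k * φ i k z

/-- The system has growth `w`: for all square summable coefficients the rectangular sums are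
`O (sqrt (w m n))` at almost every point, with a bound which may depend on the point. -/
def HasGrowth (φ : ℕ → ℕ → ℝ × ℝ → ℝ) (w : ℕ → ℕ → ℝ) : Prop :=
  ∀ a : ℕ → ℕ → ℝ, Summable (fun p : ℕ × ℕ => a p.1 p.2 ^ 2) →
    ∀ᵐ z ∂sq, ∃ C : ℝ, ∀ m n, |rectSum a φ m n z| ≤ C * Real.sqrt (w m n)

/-- Convergence in the sense of Pringsheim at the point `z`. -/
def PringsheimConverges (a : ℕ → ℕ → ℝ) (φ : ℕ → ℕ → ℝ × ℝ → ℝ) (z : ℝ × ℝ) : Prop :=
  ∃ L : ℝ, ∀ ε > 0, ∃ N, ∀ m ≥ N, ∀ n ≥ N, |rectSum a φ m n z - L| < ε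

/-- A counterexample with the weight `μ i * ν k`: there are `ν ≥ 1`, nondecreasing and unbounded,
such that `μ i * ν k` is admissible, a double orthonormal system with growth `μ i` (the bound
`O (sqrt (μ m))` does not even depend on `n`), hence with growth `μ i * ν k`, and coefficients with
`∑ a i k ^ 2 * (μ i * ν k) * θ i < ∞`, such that at almost every point of the square the
rectangular sums are unbounded as `min (m, n) → ∞`; in particular the series diverges in
Pringsheim's sense almost everywhere. -/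
def Counterexample (μ θ : ℕ → ℝ) : Prop :=
  ∃ ν : ℕ → ℝ, (∀ k, 1 ≤ ν k) ∧ Monotone ν ∧ Tendsto ν atTop atTop ∧
    Admissible (fun i k => μ i * ν k) ∧
    ∃ φ : ℕ → ℕ → ℝ × ℝ → ℝ, DoubleOrthonormal φ ∧ HasGrowth φ (fun i _ => μ i) ∧
      HasGrowth φ (fun i k => μ i * ν k) ∧
      ∃ a : ℕ → ℕ → ℝ, Summable (fun p : ℕ × ℕ => a p.1 p.2 ^ 2 * (μ p.1 * ν p.2) * θ p.1) ∧
        ∀ᵐ z ∂sq, (∀ (K : ℝ) (M : ℕ), ∃ m ≥ M, ∃ n ≥ M, K < |rectSum a φ m n z|) ∧
          ¬ PringsheimConverges a φ z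

/-- (1) For every positive nondecreasing unbounded `μ` there is a counterexample with a weight
`μ i * ν k`, `∑ a i k ^ 2 * μ i * ν k < ∞`, and unbounded rectangular sums almost everywhere.
(2) If moreover `μ (i + 1) ≤ C * μ i` for all `i`, then for every nondecreasing `Θ ≥ 1` for which
the sum of `1 / Θ (2 ^ q)` diverges there is such a counterexample even with
`∑ a i k ^ 2 * μ i * ν k * Θ (μ i) < ∞`. -/
theorem result :
    (∀ μ : ℕ → ℝ, (∀ i, 0 < μ i) → Monotone μ → Tendsto μ atTop atTop →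
      Counterexample μ (fun _ => 1)) ∧
    ∀ (μ : ℕ → ℝ) (Θ : ℝ → ℝ), (∀ i, 0 < μ i) → Monotone μ → Tendsto μ atTop atTop →
      (∃ C : ℝ, ∀ i, μ (i+1) ≤ C * μ i) → Monotone Θ → (∀ t, 1 ≤ Θ t) →
      (¬ Summable (fun q : ℕ => (Θ ((2:ℝ)^q))⁻¹)) →
      Counterexample μ (fun i => Θ (μ i)) := by
  refine ⟨fun μ h1 h2 h3 => Pool.Agent.Y259.PF.every μ h1 h2 h3, ?_⟩
  rintro μ Θ h1 h2 h3 ⟨C, hC⟩ h4 h5 h6
  exact Pool.Agent.Y259.PF.sharp μ Θ h1 h2 h3 C hC h4 h5 h6

end Pool.Agent.Results.MP_8173ef_an.EveryGrowthRate
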